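import Pool.Agent.W300.FT.Stm

set_option autoImplicit false

namespace Pool.Agent.W464.FT

open Pool.Agent.W300.FT MeasureTheory ProbabilityTheory

instance instPI (V : Type) : IsProbabilityMeasure (PI V) := by
  unfold PI; infer_instance

theorem measurable_mix {V : Type} (N : Set V) :
    Measurable (fun p : (V → unitInterval) × (V → unitInterval) => mix N p.1 p.2) := by
  classical
  rw [measurable_pi_iff]
  intro u
  by_cases hu : u ∈ N
  · have : (fun p : (V → unitInterval) × (V → unitInterval) => mix N p.1 p.2 u)
        = fun p => p.1 u := by
      funext p; simp [mix, hu]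
    rw [this]
    exact (measurable_pi_apply u).comp measurable_fst
  · have : (fun p : (V → unitInterval) × (V → unitInterval) => mix N p.1 p.2 u)
        = fun p => p.2 u := by
      funext p; simp [mix, hu]
    rw [this]
    exact (measurable_pi_apply u).comp measurable_snd

theorem measurableSet_bool_eq {α : Type*} [MeasurableSpace α] {f g : α → Bool}
    (hf : Measurable f) (hg : Measurable g) : MeasurableSet {a | f a = g a} := by
  have : {a | f a = g a} = (fun a => (f a, g a)) ⁻¹' {p : Bool × Bool | p.1 = p.2} := rfl
  rw [this]
  exact (hf.prodMk hg) (MeasurableSet.of_discrete)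

theorem loc1 : S_LOC1 := by
  classical
  intro V G F hV hF m v
  have hFm : ∀ k : K, Measurable (fun y : V → unitInterval => F y v k) := fun k =>
    (measurable_pi_apply k).comp ((measurable_pi_apply v).comp hF)
  constructor
  · -- measurability of `Loc`
    let E : Set ((V → unitInterval) × ((V → unitInterval) × (V → unitInterval))) :=
      {q | ¬ (F (mix (Bal G m v) q.1 q.2.1) v = F (mix (Bal G m v) q.1 q.2.2) v)}
    have h1 : Measurable (fun q : (V → unitInterval) × ((V → unitInterval) × (V → unitInterval)) =>
        mix (Bal G m v) q.1 q.2.1) :=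
      (measurable_mix (Bal G m v)).comp
        (measurable_fst.prodMk (measurable_fst.comp measurable_snd))
    have h2 : Measurable (fun q : (V → unitInterval) × ((V → unitInterval) × (V → unitInterval)) =>
        mix (Bal G m v) q.1 q.2.2) :=
      (measurable_mix (Bal G m v)).comp
        (measurable_fst.prodMk (measurable_snd.comp measurable_snd))
    have hE : MeasurableSet E := by
      have : E = (⋂ k : K, {q | F (mix (Bal G m v) q.1 q.2.1) v k
          = F (mix (Bal G m v) q.1 q.2.2) v k})ᶜ := by
        ext q
        simp only [E, Set.mem_setOf_eq, Set.mem_compl_iff, Set.mem_iInter, funext_iff]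
      rw [this]
      refine (MeasurableSet.iInter fun k => ?_).compl
      exact measurableSet_bool_eq ((hFm k).comp h1) ((hFm k).comp h2)
    have hmeas := measurable_measure_prodMk_left (ν := (PI V).prod (PI V)) hE
    have : Loc G F m v = (fun y => ((PI V).prod (PI V)) (Prod.mk y ⁻¹' E)) ⁻¹' {0} := by
      ext y
      simp only [Loc, Set.mem_setOf_eq, Set.mem_preimage, Set.mem_singleton_iff]
      rw [ae_iff]
      rfl
    rw [this]
    exact hmeas (measurableSet_singleton 0)
  · -- measurability of `Gf`
    rw [measurable_pi_iff]
    intro k
    apply measurable_to_bool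
    let E : Set ((V → unitInterval) × (V → unitInterval)) :=
      {q | F (mix (Bal G m v) q.1 q.2) v k = true}
    have hE : MeasurableSet E :=
      measurableSet_bool_eq ((hFm k).comp (measurable_mix (Bal G m v))) measurable_const
    have hmeas := measurable_measure_prodMk_left (ν := PI V) hE
    have : (fun y => Gf G F m v y k) ⁻¹' {true}
        = (fun y => PI V (Prod.mk y ⁻¹' E)) ⁻¹' Set.Ioi (1 / 2) := by
      ext y
      simp only [Gf, Set.mem_preimage, Set.mem_singleton_iff, decide_eq_true_eq, Set.mem_Ioi]
      rfl
    rw [this]
    exact hmeas measurableSet_Ioi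

end Pool.Agent.W464.FT
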