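import Pool.Agent.W300.FT.Stm

set_option autoImplicit false

namespace Pool.Agent.W464.FT2

open Pool.Agent.W300.FT MeasureTheory ProbabilityTheory

theorem instPI (V : Type) : IsProbabilityMeasure (PI V) := by
  unfold PI; infer_instance

theorem mix_congr {V : Type} (N : Set V) (y y' p : V → unitInterval) (h : ∀ u ∈ N, y u = y' u) :
    mix N y p = mix N y' p := by
  classical
  funext u
  by_cases hu : u ∈ N
  · simp [mix, hu, h u hu]
  · simp [mix, hu]

theorem loc2 : S_LOC2 := by
  intro V G F m v y y' h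
  have hm : ∀ p, mix (Bal G m v) y p = mix (Bal G m v) y' p := fun p => mix_congr _ _ _ p h
  constructor
  · unfold Loc
    simp only [Set.mem_setOf_eq, hm]
  · unfold Gf
    simp only [hm]

theorem loc4 (h1 : S_LOC1) : S_LOC4 := by
  classical
  intro V G F hV hF v hae ε hε
  haveI := instPI V
  let A : ℕ → Set (V → unitInterval) := fun r =>
    {y | ∀ y' : V → unitInterval, (∀ u : V, G.dist v u ≤ r → y' u = y u) → F y' v = F y v}
  have hmono : Monotone A := by
    intro r s hrs y hy y' hy'
    exact hy y' (fun u hu => hy' u (hu.trans hrs))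
  have hsub : ∀ r, A r ⊆ Loc G F r v := by
    intro r y hy
    have key : ∀ p : V → unitInterval, F (mix (Bal G r v) y p) v = F y v := by
      intro p
      apply hy
      intro u hu
      have : u ∈ Bal G r v := hu
      simp [mix, this]
    show ∀ᵐ p ∂((PI V).prod (PI V)), F (mix (Bal G r v) y p.1) v = F (mix (Bal G r v) y p.2) v
    exact Filter.Eventually.of_forall fun p => by rw [key, key]
  have hun : PI V (⋃ r, A r) = 1 := by
    apply le_antisymm prob_le_one
    have : PI V Set.univ ≤ PI V (⋃ r, A r) := by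
      apply measure_mono_ae
      filter_upwards [hae] with y hy _
      obtain ⟨r, hr⟩ := hy
      exact Set.mem_iUnion.mpr ⟨r, hr⟩
    rwa [measure_univ] at this
  rw [hmono.measure_iUnion] at hun
  have hlt : 1 - ε < ⨆ r, PI V (A r) := by
    rw [hun]
    exact ENNReal.sub_lt_self ENNReal.one_ne_top one_ne_zero hε.ne'
  obtain ⟨m, hm⟩ := lt_iSup_iff.mp hlt
  refine ⟨m, ?_⟩
  have hL : 1 - ε < PI V (Loc G F m v) := hm.trans_le (measure_mono (hsub m))
  rw [prob_compl_eq_one_sub (h1 V G F hV hF m v).1]
  by_contra hcon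
  rw [not_lt] at hcon
  have hεt : ε ≠ ⊤ := ne_top_of_le_ne_top ENNReal.one_ne_top (hcon.trans tsub_le_self)
  have h2 : PI V (Loc G F m v) ≤ 1 - ε := by
    apply ENNReal.le_sub_of_add_le_left hεt
    have h3 : ε + PI V (Loc G F m v) ≤ (1 - PI V (Loc G F m v)) + PI V (Loc G F m v) :=
      add_le_add hcon le_rfl
    rwa [tsub_add_cancel_of_le prob_le_one] at h3
  exact absurd hL (not_lt.mpr h2)

end Pool.Agent.W464.FT2
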